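import Mathlib
import Pool.Agent.Y201.LI.Stm2

/-!
# Sum over the irreducible factors
-/

set_option autoImplicit false

namespace Pool.Agent.Y155.LI

open MvPolynomial Pool.Agent.TH314.PD IntermediateField Module Pool.Agent.Y201.LI

theorem top_prod {A : Type} [CommRing A] {ι : Type} (s : Finset ι) (q : ι → Polynomial A)
    (n : ι → ℕ) (c : ι → A) (h : ∀ i ∈ s, (q i).natDegree ≤ n i ∧ (q i).coeff (n i) = c i) :
    (∏ i ∈ s, q i).natDegree ≤ ∑ i ∈ s, n i ∧
      (∏ i ∈ s, q i).coeff (∑ i ∈ s, n i) = ∏ i ∈ s, c i := by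
  classical
  induction s using Finset.induction_on with
  | empty => simp
  | insert a s ha ih =>
    obtain ⟨h1, h2⟩ := ih fun i hi => h i (Finset.mem_insert_of_mem hi)
    obtain ⟨h3, h4⟩ := h a (Finset.mem_insert_self _ _)
    rw [Finset.prod_insert ha, Finset.prod_insert ha, Finset.sum_insert ha]
    exact ⟨Polynomial.natDegree_mul_le_of_le h3 h1,
      by rw [Polynomial.coeff_mul_add_eq_of_natDegree_le h3 h1, h2, h4]⟩

theorem top_pow {A : Type} [CommRing A] (q : Polynomial A) (c : A) (h1 : q.natDegree ≤ 1)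
    (h2 : q.coeff 1 = c) (m : ℕ) : (q ^ m).natDegree ≤ m ∧ (q ^ m).coeff m = c ^ m := by
  have := top_prod (Finset.range m) (fun _ => q) (fun _ => 1) (fun _ => c) (fun _ _ => ⟨h1, h2⟩)
  simpa using this

theorem top_eval {K A : Type} [CommRing K] [CommRing A] (φ : K →+* A) {r e : ℕ}
    (G : MvPolynomial (Fin r) K) (hG : G.IsHomogeneous e) (u w : Fin r → A) :
    (eval₂ ((Polynomial.C : A →+* Polynomial A).comp φ)
      (fun j => Polynomial.X * Polynomial.C (u j) + Polynomial.C (w j)) G).natDegree ≤ e ∧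
    (eval₂ ((Polynomial.C : A →+* Polynomial A).comp φ)
      (fun j => Polynomial.X * Polynomial.C (u j) + Polynomial.C (w j)) G).coeff e =
      eval₂ φ u G := by
  rw [eval₂_eq', eval₂_eq']
  have key : ∀ m ∈ G.support, (((Polynomial.C : A →+* Polynomial A).comp φ) (coeff m G) *
      ∏ j, (Polynomial.X * Polynomial.C (u j) + Polynomial.C (w j)) ^ m j).natDegree ≤ e ∧
      (((Polynomial.C : A →+* Polynomial A).comp φ) (coeff m G) *
      ∏ j, (Polynomial.X * Polynomial.C (u j) + Polynomial.C (w j)) ^ m j).coeff e =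
      φ (coeff m G) * ∏ j, u j ^ m j := by
    intro m hm
    have hme : ∑ j, m j = e := by
      rw [← Finsupp.degree_eq_sum, Finsupp.degree_eq_weight_one]
      exact hG (mem_support_iff.1 hm)
    obtain ⟨h1, h2⟩ := top_prod Finset.univ
      (fun j => (Polynomial.X * Polynomial.C (u j) + Polynomial.C (w j)) ^ m j) (fun j => m j)
      (fun j => u j ^ m j) (fun j _ => top_pow _ _ (by compute_degree) (by simp) _)
    rw [hme] at h1 h2
    refine ⟨(Polynomial.natDegree_C_mul_le _ _).trans h1, ?_⟩
    rw [RingHom.comp_apply, Polynomial.coeff_C_mul, h2]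
  refine ⟨Polynomial.natDegree_sum_le_of_forall_le _ _ fun m hm => (key m hm).1, ?_⟩
  rw [Polynomial.finsetSum_coeff]
  exact Finset.sum_congr rfl fun m hm => (key m hm).2

/-- divisibility along the irreducible factors -/
theorem fac {Ω : Type} [Field Ω] (p : Polynomial Ω) (a K : ℕ)
    (h : ∀ g : Polynomial Ω, Irreducible g → g ∣ p → a ∣ g.natDegree * K) :
    ∀ q : Polynomial Ω, q ≠ 0 → q ∣ p → a ∣ q.natDegree * K := by
  intro q
  induction q using WfDvdMonoid.induction_on_irreducible with
  | zero => exact fun h0 => absurd rfl h0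
  | unit u hu =>
    intro _ _
    rw [Polynomial.natDegree_eq_zero_of_isUnit hu]
    simp
  | mul b i hb hi ih =>
    intro _ hd
    rw [Polynomial.natDegree_mul hi.ne_zero hb, add_mul]
    exact dvd_add (h i hi ((Dvd.intro _ rfl).trans hd)) (ih hb ((Dvd.intro_left _ rfl).trans hd))

theorem t1 (h : S_FA) (hb : S_BPF) : S_T1 := by
  intro r d F hF hd hirr hsm M _ _ L t ht u w hu hw hx hgen
  by_cases hfin : FiniteDimensional (ratioField fun i => t * u i + w i) M
  swap
  · rw [Module.finrank_of_not_finite hfin]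
    exact dvd_zero _
  set δ := finrank (ratioField fun i => t * u i + w i) M with hδ
  -- the generic field
  let P := MvPolynomial ((Fin r ⊕ Fin r) ⊕ Fin 3) M
  let Ω := FractionRing P
  let ψ : P →ₐ[M] Ω := IsScalarTower.toAlgHom M P Ω
  have hψ : Function.Injective ψ := IsFractionRing.injective P Ω
  let v₁ : Fin r → Ω := fun i => ψ (X (Sum.inl (Sum.inl i)))
  let v₂ : Fin r → Ω := fun i => ψ (X (Sum.inl (Sum.inr i)))
  let g : Fin 3 → Ω := fun i => ψ (X (Sum.inr i))
  have hind : AlgebraicIndependent M (Sum.elim (Sum.elim v₁ v₂) ![g 0, g 1, g 2]) := by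
    have h1 := (MvPolynomial.algebraicIndependent_X ((Fin r ⊕ Fin r) ⊕ Fin 3) M).map' hψ
    have h2 : (ψ ∘ X : (Fin r ⊕ Fin r) ⊕ Fin 3 → Ω) =
        Sum.elim (Sum.elim v₁ v₂) ![g 0, g 1, g 2] := by
      funext s
      rcases s with (s | s) | s
      · rfl
      · rfl
      · fin_cases s <;> rfl
    rw [← h2]
    exact h1
  have htop : adjoin M (Set.range v₁ ∪ Set.range v₂ ∪ {g 0, g 1, g 2}) = ⊤ := by
    rw [eq_top_iff]
    rintro z -
    have hP : ∀ q : P, ψ q ∈ adjoin M (Set.range v₁ ∪ Set.range v₂ ∪ {g 0, g 1, g 2}) := by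
      intro q
      induction q using MvPolynomial.induction_on with
      | C a =>
        have : ψ (C a) = algebraMap M Ω a := ψ.commutes a
        rw [this]
        exact IntermediateField.algebraMap_mem _ _
      | add f g hf hg =>
        rw [map_add]
        exact add_mem hf hg
      | mul_X f i hf =>
        rw [map_mul]
        refine mul_mem hf (IntermediateField.subset_adjoin _ _ ?_)
        rcases i with (i | i) | i
        · exact Or.inl (Or.inl ⟨i, rfl⟩)
        · exact Or.inl (Or.inr ⟨i, rfl⟩)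
        · right
          fin_cases i
          · left; rfl
          · right; left; rfl
          · right; right; rfl
    obtain ⟨a, b, -, hz⟩ := IsFractionRing.div_surjective (A := P) z
    rw [← hz]
    exact div_mem (hP a) (hP b)
  -- the polynomial
  let p : Polynomial Ω := ∑ i, Polynomial.C (v₁ i) *
    eval₂ ((Polynomial.C : Ω →+* Polynomial Ω).comp (algebraMap ℂ Ω))
      (fun j => Polynomial.X * Polynomial.C (algebraMap M Ω (u j)) +
        Polynomial.C (algebraMap M Ω (w j))) (pderiv i F)
  have hFi : ∀ i, (pderiv i F).IsHomogeneous (d - 1) := fun i => hF.pderiv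
  have htopi := fun i => top_eval (algebraMap ℂ Ω) (pderiv i F) (hFi i)
    (fun j => algebraMap M Ω (u j)) (fun j => algebraMap M Ω (w j))
  have hpn : p.natDegree ≤ d - 1 := Polynomial.natDegree_sum_le_of_forall_le _ _ fun i _ =>
    (Polynomial.natDegree_C_mul_le _ _).trans (htopi i).1
  have hpc : p.coeff (d - 1) = ψ (∑ i, C (aeval u (pderiv i F)) * X (Sum.inl (Sum.inl i))) := by
    rw [Polynomial.finsetSum_coeff, map_sum]
    refine Finset.sum_congr rfl fun i _ => ?_
    rw [Polynomial.coeff_C_mul, (htopi i).2, map_mul, mul_comm]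
    have h1 : ψ (C (aeval u (pderiv i F))) = algebraMap M Ω (aeval u (pderiv i F)) :=
      ψ.commutes _
    rw [h1, aeval_def, eval₂_comp_left (algebraMap M Ω), ← IsScalarTower.algebraMap_eq ℂ M Ω]
    rfl
  have hne : p.coeff (d - 1) ≠ 0 := by
    rw [hpc]
    intro h0
    have h1 := hψ (h0.trans (map_zero ψ).symm)
    have h2 : ∀ i, aeval u (pderiv i F) = 0 := by
      intro i
      have h3 := congrArg (coeff (Finsupp.single (Sum.inl (Sum.inl i)) 1)) h1
      rw [coeff_sum, coeff_zero] at h3
      rw [Finset.sum_eq_single i] at h3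
      · rwa [coeff_C_mul, coeff_X, if_pos rfl, mul_one] at h3
      · intro j _ hj
        rw [coeff_C_mul, coeff_X, if_neg, mul_zero]
        intro h4
        have h5 := Finsupp.single_left_injective one_ne_zero h4
        exact hj (Sum.inl_injective (Sum.inl_injective h5))
      · simp
    have hu0 : u = 0 := hb r F hsm d hF M (algebraMap ℂ M) u (by simp) h2
    apply ht
    have hle : (ratioField fun i => t * u i + w i) ≤ L := by
      refine IntermediateField.adjoin_le_iff.2 ?_
      rintro z ⟨i, j, rfl⟩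
      simp only [hu0, Pi.zero_apply, mul_zero, zero_add]
      exact div_mem (hw i) (hw j)
    obtain ⟨q, hq, hq0⟩ : IsAlgebraic (ratioField fun i => t * u i + w i) t :=
      Algebra.IsAlgebraic.isAlgebraic t
    refine ⟨q.map (IntermediateField.inclusion hle).toRingHom, ?_, ?_⟩
    · rwa [Polynomial.map_ne_zero_iff]
      exact (IntermediateField.inclusion hle).toRingHom.injective
    · rw [Polynomial.aeval_def, Polynomial.eval₂_map]
      exact hq0
  have hpd : p.natDegree = d - 1 := le_antisymm hpn (Polynomial.le_natDegree_of_ne_zero hne)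
  have hp0 : p ≠ 0 := by
    intro h0
    rw [h0, Polynomial.coeff_zero] at hne
    exact hne rfl
  have main : (d - 1) ^ 2 ∣ p.natDegree * (d * δ) := by
    refine fac p ((d - 1) ^ 2) (d * δ) ?_ p hp0 dvd_rfl
    intro q hq hqp
    have : Fact (Irreducible q) := ⟨hq⟩
    let N := AdjoinRoot q
    have : FiniteDimensional Ω N := (AdjoinRoot.powerBasis hq.ne_zero).finite
    have hN : finrank Ω N = q.natDegree := (AdjoinRoot.powerBasis hq.ne_zero).finrank
    rw [← hN]
    refine h r d F hF hd hirr hsm M Ω N L t ht u w hu hw hx hfin hgen v₁ v₂ (g 0) (g 1) (g 2)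
      hind htop (AdjoinRoot.root q) ?_
    have h1 : Polynomial.aeval (AdjoinRoot.root q) p = 0 := by
      rw [AdjoinRoot.aeval_eq]
      exact AdjoinRoot.mk_eq_zero.2 hqp
    rw [← h1, map_sum]
    refine Finset.sum_congr rfl fun i _ => ?_
    rw [map_mul, Polynomial.aeval_C]
    refine congrArg _ ?_
    have h2 := eval₂_comp_left (Polynomial.aeval (AdjoinRoot.root q) : Polynomial Ω →ₐ[Ω] N).toRingHom
      ((Polynomial.C : Ω →+* Polynomial Ω).comp (algebraMap ℂ Ω))
      (fun j => Polynomial.X * Polynomial.C (algebraMap M Ω (u j)) +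
        Polynomial.C (algebraMap M Ω (w j))) (pderiv i F)
    have e1 : (Polynomial.aeval (AdjoinRoot.root q) : Polynomial Ω →ₐ[Ω] N).toRingHom.comp
        ((Polynomial.C : Ω →+* Polynomial Ω).comp (algebraMap ℂ Ω)) =
        (algebraMap Ω N).comp (algebraMap ℂ Ω) := by
      refine RingHom.ext fun c => ?_
      exact Polynomial.aeval_C _ _
    have e2 : (Polynomial.aeval (AdjoinRoot.root q) : Polynomial Ω →ₐ[Ω] N).toRingHom ∘
        (fun j => Polynomial.X * Polynomial.C (algebraMap M Ω (u j)) +
        Polynomial.C (algebraMap M Ω (w j))) =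
        fun j => AdjoinRoot.root q * algebraMap Ω N (algebraMap M Ω (u j)) +
            algebraMap Ω N (algebraMap M Ω (w j)) := by
      funext j
      change Polynomial.aeval (AdjoinRoot.root q) (Polynomial.X * Polynomial.C
        (algebraMap M Ω (u j)) + Polynomial.C (algebraMap M Ω (w j))) = _
      rw [map_add, map_mul, Polynomial.aeval_X, Polynomial.aeval_C, Polynomial.aeval_C]
    rw [e1, e2] at h2
    exact h2.symm
  rw [hpd, pow_two] at main
  have h1 : 0 < d - 1 := by omega
  have h2 := Nat.dvd_of_mul_dvd_mul_left h1 main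
  refine Nat.Coprime.dvd_of_dvd_mul_left ?_ h2
  have h3 : d = (d - 1) + 1 := by omega
  rw [h3]
  simp

end Pool.Agent.Y155.LI
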